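import Pool.Agent.H3.HMS.PLib
import Pool.Agent.H76.HMS.ExStmts

set_option autoImplicit false

namespace Pool.HMS

open TMLib Finset Polynomial
open K3

theorem ept_thm (h1 : S_QOP) (h2 : S_QSUM) : S_EPT := by
  haveI : Fact QOps := Fact.mk h1
  haveI : Fact QSums := Fact.mk h2
  intro α _ O rnd hO hr
  have hex : PTime (fun p : (α × ℕ × ℚ × ℕ) × ENode => exNode O rnd p.1 p.2) := by
    unfold exNode
    have h1 : PTime (fun p : (α × ℕ × ℚ × ℕ) × ENode =>
        rnd ((p.1.1, p.1.2.1, p.2.2.1), p.2.1, p.2.2.2)) := hr.comp (by fun_prop)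
    have h2 : PTime (fun p : (α × ℕ × ℚ × ℕ) × ENode =>
        O p.1.1 (app p.1.2.1 0 p.2.2.1 [])) :=
      hO.comp (f := fun p : (α × ℕ × ℚ × ℕ) × ENode => (p.1.1, app p.1.2.1 0 p.2.2.1 []))
        (by fun_prop)
    have h3 : PTime (fun p : (α × ℕ × ℚ × ℕ) × ENode =>
        (O p.1.1 (app p.1.2.1 0 p.2.2.1 [])).isNone) := by
      refine (PTime.not (PTime.isSome h2)).congr fun p => ?_
      cases O p.1.1 (app p.1.2.1 0 p.2.2.1 []) <;> rfl
    refine PTime.ite (by fun_prop) (PTime.pair (by fun_prop) ?_) ?_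
    · exact PTime.ite (PTime.decide_true' h3) (by fun_prop) (by fun_prop)
    · refine PTime.ite (PTime.decide_true' (by fun_prop)) (PTime.pair (by fun_prop) (by fun_prop)) ?_
      refine PTime.pair ?_ (by fun_prop)
      refine PTime.filter (by fun_prop) ?_
      exact PTime.le (PTime.sz' (by fun_prop)) (PTime.mul (by fun_prop) (PTime.sz' (by fun_prop)))
  have hcap : PB (fun c : α × ℕ × ℚ × ℕ => c.2.2.2 * sz (c.2.1, c.2.2.1)) := by
    have h1 : PTime (fun c : α × ℕ × ℚ × ℕ => c.2.2.2) := by fun_prop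
    have h2 : PTime (fun c : α × ℕ × ℚ × ℕ => (c.2.1, c.2.2.1)) := by fun_prop
    exact (h1.pb.mono fun c => by simp only [sz_nat]; omega).mul h2.pb
  have := WPT_main (ex := exNode O rnd) hex hcap (fun c x y hy => by
    unfold exNode at hy
    by_cases h1 : x.1 = 0
    · rw [if_pos h1] at hy; simp at hy
    · rw [if_neg h1] at hy
      by_cases h2 : (rnd ((c.1, c.2.1, x.2.1), x.1, x.2.2)).1.1 = true
      · rw [if_pos h2] at hy; simp at hy
      · rw [if_neg h2] at hy
        simpa using (List.mem_filter.1 hy).2)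
    (init := fun c : α × ℕ × ℚ × ℕ => (c.2.1, idMat c.2.1, c.2.2.1)) (by fun_prop)
    (n := fun c : α × ℕ × ℚ × ℕ => c.2.2.2) (by fun_prop)
  exact PTime.snd this

end Pool.HMS
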