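import Pool.Agent.H76.HMS.SvDefs

/-!
# HMS: polynomial time of worklist searches
-/

set_option autoImplicit false

namespace Pool.HMS

open TMLib Finset Polynomial

section

variable {β ν ω : Type} [Enc β] [Enc ν] [Enc ω]

theorem WPT_step {ex : β → ν → List ν × List ω} (hex : PTime (fun p : β × ν => ex p.1 p.2)) :
    PTime (fun p : β × (List ν × List ω) => (p.1, wstep (ex p.1) p.2)) := by
  have h := PTime.listCases (α := β × (List ν × List ω)) (β := ν) (γ := List ν × List ω)
    (l := fun p => p.2.1) (f := fun p => p.2)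
    (g := fun p x r => ((ex p.1 x).1 ++ r, (ex p.1 x).2 ++ p.2.2))
    (PTime.fst (PTime.snd PTime.id)) (PTime.snd PTime.id)
    (by
      have hx : PTime (fun q : (β × (List ν × List ω)) × ν × List ν => ex q.1.1 q.2.1) :=
        hex.comp (f := fun q : (β × (List ν × List ω)) × ν × List ν => (q.1.1, q.2.1))
          (PTime.pair (PTime.fst (PTime.fst PTime.id)) (PTime.fst (PTime.snd PTime.id)))
      exact PTime.pair (PTime.append (PTime.fst hx) (PTime.snd (PTime.snd PTime.id)))
        (PTime.append (PTime.snd hx) (PTime.snd (PTime.snd (PTime.fst PTime.id)))))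
  refine PTime.pair (PTime.fst PTime.id) (h.congr fun p => ?_)
  obtain ⟨c, s1, s2⟩ := p
  cases s1 <;> rfl

theorem WPT_iter {ex : β → ν → List ν × List ω} (k : ℕ) : ∀ (c : β) (s : List ν × List ω),
    (fun p : β × (List ν × List ω) => (p.1, wstep (ex p.1) p.2))^[k] (c, s) =
      (c, (wstep (ex c))^[k] s) := by
  induction k with
  | zero => intro c s; rfl
  | succ k ih => intro c s; rw [Function.iterate_succ_apply, Function.iterate_succ_apply, ih]

theorem WPT_bound {ex : β → ν → List ν × List ω} (c : β) (M R : ℕ)
    (hy : ∀ x, ∀ y ∈ (ex c x).1, sz y ≤ M) (hR : ∀ x, sz x ≤ M → sz (ex c x) ≤ R) (k : ℕ) :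
    ∀ (s : List ν × List ω), (∀ x ∈ s.1, sz x ≤ M) →
      sz ((wstep (ex c))^[k] s) ≤ sz s + k * (2 * R) := by
  induction k with
  | zero => intro s _; simp
  | succ k ih =>
    intro s hs
    rw [Function.iterate_succ_apply]
    have h1 : (∀ x ∈ (wstep (ex c) s).1, sz x ≤ M) ∧ sz (wstep (ex c) s) ≤ sz s + 2 * R := by
      obtain ⟨s1, s2⟩ := s
      cases s1 with
      | nil => exact ⟨hs, by simp [wstep]⟩
      | cons x r =>
        have hx := hR x (hs x (by simp))
        have ha := sz_append (ex c x).1 r
        have hb := sz_append (ex c x).2 s2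
        have h0 : sz (ex c x) = 1 + sz (ex c x).1 + sz (ex c x).2 := sz_pair _
        constructor
        · intro y hy'
          have hy'' : y ∈ (ex c x).1 ++ r := hy'
          rcases List.mem_append.1 hy'' with h | h
          · exact hy x y h
          · exact hs y (by simp [h])
        · show sz ((ex c x).1 ++ r, (ex c x).2 ++ s2) ≤ sz ((x :: r, s2) : List ν × List ω) + 2 * R
          simp only [sz_pair, sz_cons]
          omega
    have h2 := ih _ h1.1
    have h3 : (k + 1) * (2 * R) = k * (2 * R) + 2 * R := by ring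
    omega

/-- A worklist search whose nodes have bounded size is polynomial time. -/
theorem WPT_main {ex : β → ν → List ν × List ω} (hex : PTime (fun p : β × ν => ex p.1 p.2))
    {cap : β → ℕ} (hcap : PB cap) (hy : ∀ c x, ∀ y ∈ (ex c x).1, sz y ≤ cap c)
    {init : β → ν} (hinit : PTime init) {n : β → ℕ} (hn : PTime n) :
    PTime (fun c => (wstep (ex c))^[n c] ([init c], [])) := by
  obtain ⟨P, hP⟩ := hex.exists_size_le
  have hs : PTime (fun c => (c, (([init c], []) : List ν × List ω))) :=
    PTime.pair PTime.id (PTime.pair (PTime.cons hinit (PTime.const [])) (PTime.const []))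
  have hM : PB (fun c => cap c + sz (init c)) := hcap.add hinit.pb
  have hR : PB (fun c => P.eval (1 + sz c + (cap c + sz (init c)))) :=
    ((((PB.const 1).add PB.sz_self).add hM)).poly P
  have hn' : PB (fun c => n c) := hn.pb.mono fun c => by simp only [sz_nat]; omega
  have hb : PB (fun c => 1 + sz c + (4 + sz (init c)) +
      n c * (2 * P.eval (1 + sz c + (cap c + sz (init c))))) :=
    (((PB.const 1).add PB.sz_self).add ((PB.const 4).add hinit.pb)).add
      (hn'.mul ((PB.const 2).mul hR))
  have := PTime.iter (WPT_step hex) hs hn hb (fun c i hi => by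
    rw [WPT_iter]
    have h1 := WPT_bound (ex := ex) c (cap c + sz (init c))
      (P.eval (1 + sz c + (cap c + sz (init c))))
      (fun x y hy' => le_trans (hy c x y hy') (Nat.le_add_right _ _))
      (fun x hx => le_trans (hP (c, x)) (eval_mono P (by simp only [sz_pair]; omega))) i
      ([init c], []) (by simp)
    have h2 : i * (2 * P.eval (1 + sz c + (cap c + sz (init c)))) ≤
        n c * (2 * P.eval (1 + sz c + (cap c + sz (init c)))) := Nat.mul_le_mul_right _ hi
    simp only [sz_pair, sz_cons, sz_nil] at h1 ⊢
    omega)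
  refine (PTime.snd this).congr fun c => ?_
  rw [WPT_iter]

end

end Pool.HMS
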