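import Pool.Agent.H3.HMS.QAr
import Pool.Agent.H3.HMS.WPT

/-!
# HMS: polynomial time of the programs on vectors and matrices
-/

set_option autoImplicit false

namespace Pool.HMS.K3

open TMLib Finset Polynomial

variable {α β : Type} [Enc α] [Enc β] [Fact QOps] [Fact QSums]

@[fun_prop] lemma ptime_fn {v : α → Vec} {i : α → ℕ} (hv : PTime v) (hi : PTime i) :
    PTime (fun x => fn (v x) (i x)) := by
  unfold fn; fun_prop

@[fun_prop] lemma ptime_ent {m : α → Mat} {i j : α → ℕ} (hm : PTime m) (hi : PTime i)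
    (hj : PTime j) : PTime (fun x => ent (m x) (i x) (j x)) := by
  unfold ent; fun_prop

@[fun_prop] lemma ptime_tab {n : α → ℕ} {f : α → ℕ → ℚ} (hn : PTime n)
    (hf : PTime fun p : α × ℕ => f p.1 p.2) : PTime (fun x => tab (n x) (f x)) := by
  unfold tab; exact PTime.map (PTime.range hn) hf

@[fun_prop] lemma ptime_sumTo {n : α → ℕ} {f : α → ℕ → ℚ} (hn : PTime n)
    (hf : PTime fun p : α × ℕ => f p.1 p.2) : PTime (fun x => sumTo (n x) (f x)) := by
  unfold sumTo; exact ptime_qsum (PTime.map (PTime.range hn) hf)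

@[fun_prop] lemma ptime_app {e e' : α → ℕ} {N : α → Mat} {x : α → Vec} (he : PTime e)
    (he' : PTime e') (hN : PTime N) (hx : PTime x) :
    PTime (fun a => app (e a) (e' a) (N a) (x a)) := by
  unfold app; fun_prop

@[fun_prop] lemma ptime_pull {e e' : α → ℕ} {N : α → Mat} {s : α → Vec} (he : PTime e)
    (he' : PTime e') (hN : PTime N) (hs : PTime s) :
    PTime (fun a => pull (e a) (e' a) (N a) (s a)) := by
  unfold pull; fun_prop

@[fun_prop] lemma ptime_idMat {n : α → ℕ} (hn : PTime n) : PTime (fun a => idMat (n a)) := by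
  unfold idMat; fun_prop

@[fun_prop] lemma ptime_slice {D : α → ℕ} {U : α → Mat} {k : α → ℚ} (hD : PTime D)
    (hU : PTime U) (hk : PTime k) : PTime (fun a => slice (D a) (U a) (k a)) := by
  unfold slice; fun_prop

theorem PLib_kList (b : ℕ) (k0 k1 : ℚ) : kList b k0 k1 =
    ((List.range b).map fun i : ℕ => k0 + ((i : ℕ) : ℚ)).filter fun k => decide (k ≤ k1) := by
  have h : (do let a ← List.range b; pure ((a : ℕ) : ℚ) : List ℚ) =
      (List.range b).map fun i : ℕ => ((i : ℕ) : ℚ) := by
    simp only [List.bind_eq_flatMap, List.pure_def]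
    exact List.map_eq_flatMap.symm
  unfold kList
  rw [h, List.map_map]
  rfl

@[fun_prop] lemma ptime_kList {b : α → ℕ} {k0 k1 : α → ℚ} (hb : PTime b)
    (h0 : PTime k0) (h1 : PTime k1) : PTime (fun a => kList (b a) (k0 a) (k1 a)) := by
  simp only [PLib_kList]; fun_prop

@[fun_prop] lemma ptime_absSum {D : α → ℕ} {W : α → Mat} (hD : PTime D)
    (hW : PTime W) : PTime (fun a => absSum (D a) (W a)) := by
  unfold absSum; fun_prop

@[fun_prop] lemma ptime_newB {D : α → ℕ} {W : α → Mat} {B : α → ℚ} (hD : PTime D)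
    (hW : PTime W) (hB : PTime B) : PTime (fun a => newB (D a) (W a) (B a)) := by
  unfold newB; fun_prop

@[fun_prop] lemma ptime_kids {b : α → ℕ} {x : α → ENode} {r : α → RRes} (hb : PTime b)
    (hx : PTime x) (hr : PTime r) : PTime (fun a => kids (b a) (x a) (r a)) := by
  unfold kids; fun_prop

@[fun_prop] lemma ptime_affP {s q : α → Vec} (hs : PTime s) (hq : PTime q) :
    PTime (fun a => affP (s a) (q a)) := by
  unfold affP; fun_prop

@[fun_prop] lemma ptime_polyO {rows : α → Mat} {q : α → Vec} (hr : PTime rows) (hq : PTime q) :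
    PTime (fun a => polyO (rows a) (q a)) := by
  unfold polyO; fun_prop

end Pool.HMS.K3
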