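import Pool.Agent.H45.HMS.PLib

/-!
# HMS: `fun_prop` lemmas for the arithmetic of rationals
-/

set_option autoImplicit false

namespace Pool.HMS.K3

open TMLib

variable {α β : Type} [Enc α] [Enc β] [Fact QOps] [Fact QSums]

@[fun_prop] lemma ptime_qadd {f g : α → ℚ} (hf : PTime f) (hg : PTime g) :
    PTime (fun x => f x + g x) := P45.add hf hg

@[fun_prop] lemma ptime_qmul {f g : α → ℚ} (hf : PTime f) (hg : PTime g) :
    PTime (fun x => f x * g x) := P45.mul hf hg

@[fun_prop] lemma ptime_qsub {f g : α → ℚ} (hf : PTime f) (hg : PTime g) :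
    PTime (fun x => f x - g x) := P45.sub hf hg

@[fun_prop] lemma ptime_qneg {f : α → ℚ} (hf : PTime f) : PTime (fun x => - f x) := P45.neg hf

@[fun_prop] lemma ptime_qle {f g : α → ℚ} (hf : PTime f) (hg : PTime g) :
    PTime (fun x => decide (f x ≤ g x)) := P45.le hf hg

@[fun_prop] lemma ptime_qlt {f g : α → ℚ} (hf : PTime f) (hg : PTime g) :
    PTime (fun x => decide (f x < g x)) := P45.lt hf hg

@[fun_prop] lemma ptime_qabs {f : α → ℚ} (hf : PTime f) : PTime (fun x => |f x|) := by
  have h : PTime (fun x => if f x < 0 then - f x else f x) :=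
    PTime.ite (ptime_qlt hf (PTime.const 0)) (ptime_qneg hf) hf
  refine h.congr fun x => ?_
  split_ifs with h0
  · exact abs_of_neg h0
  · exact abs_of_nonneg (not_lt.1 h0)

@[fun_prop] lemma ptime_qsum {f : α → List ℚ} (hf : PTime f) : PTime (fun x => (f x).sum) :=
  P45.sum hf

@[fun_prop] lemma ptime_qcast {f : α → ℕ} (hf : PTime f) : PTime (fun x => ((f x : ℕ) : ℚ)) :=
  P45.castNat hf

end Pool.HMS.K3
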