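import Pool.Agent.H48.HMS.Stm

set_option autoImplicit false

namespace Pool.HMS

open TMLib Finset

theorem SIDE_fn_range (n : ℕ) (f : ℕ → ℚ) (k : ℕ) :
    fn ((List.range n).map f) k = if k < n then f k else 0 := by
  unfold fn
  split_ifs with h
  · simp [List.getD_eq_getElem?_getD, h]
  · simp [List.getD_eq_getElem?_getD, h]

theorem SIDE_fn_mem (L : List ℚ) (k : ℕ) (h : k < L.length) : fn L k ∈ L := by
  unfold fn
  rw [List.getD_eq_getElem?_getD, List.getElem?_eq_getElem h]
  simp

theorem SIDE_fn_out (L : List ℚ) (k : ℕ) (h : L.length ≤ k) : fn L k = 0 := by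
  unfold fn
  rw [List.getD_eq_getElem?_getD, List.getElem?_eq_none h]
  simp

theorem SIDE_fn_cons (a : ℚ) (L : List ℚ) (k : ℕ) : fn (a :: L) (k + 1) = fn L k := by
  unfold fn
  simp [List.getD_eq_getElem?_getD]

theorem SIDE_fn_neg (L : List ℚ) (k : ℕ) : fn (L.map fun a => -a) k = - fn L k := by
  unfold fn
  rw [List.getD_eq_getElem?_getD, List.getD_eq_getElem?_getD, List.getElem?_map]
  cases h : L[k]? <;> simp

theorem SIDE_row (d i : ℕ) (hi : i < d) (x : ℕ → ℚ) :
    ∑ k ∈ range d, fn ((List.range (d + 1)).map fun j => if j = i + 1 then (1 : ℚ) else 0) (k + 1)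
      * x k = x i := by
  rw [Finset.sum_eq_single i]
  · rw [SIDE_fn_range]; simp [hi]
  · intro k hk hki
    rw [SIDE_fn_range]
    have : ¬ (k + 1 = i + 1) := by omega
    rw [if_neg this]
    simp
  · intro h; exact absurd (Finset.mem_range.2 hi) h

/-- nonnegative coordinates with a bounded weighted sum -/
theorem SIDE_bd (S : List ℚ) (hS : ∀ a ∈ S, (1 : ℚ) ≤ a) (T : ℚ) (x : ℕ → ℚ)
    (h0 : ∀ i < S.length, 0 ≤ x i)
    (h1 : 0 ≤ T + ∑ k ∈ range S.length, fn (S.map fun a => -a) k * x k) :
    ∀ i < S.length, x i ≤ T := by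
  intro i hi
  have h2 : ∑ k ∈ range S.length, fn (S.map fun a => -a) k * x k
      = - ∑ k ∈ range S.length, fn S k * x k := by
    rw [← Finset.sum_neg_distrib]
    refine Finset.sum_congr rfl fun k _ => ?_
    rw [SIDE_fn_neg]; ring
  rw [h2] at h1
  have h3 : fn S i * x i ≤ ∑ k ∈ range S.length, fn S k * x k := by
    refine Finset.single_le_sum (f := fun k => fn S k * x k) (fun k hk => ?_) (Finset.mem_range.2 hi)
    have hk' := Finset.mem_range.1 hk
    exact mul_nonneg (le_trans zero_le_one (hS _ (SIDE_fn_mem S k hk'))) (h0 k hk')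
  have h4 : x i ≤ fn S i * x i := by
    have := mul_le_mul_of_nonneg_right (hS _ (SIDE_fn_mem S i hi)) (h0 i hi)
    linarith
  linarith

theorem side_thm (h : S_DDP) : S_SIDE := by
  intro m T l
  set S := tmsQ (lQ l) with hSdef
  have hmem : ∀ a ∈ S, (1 : ℚ) ≤ a := by
    intro a ha
    rw [hSdef, tmsQ, List.mem_filter] at ha
    obtain ⟨ha1, ha2⟩ := ha
    rw [((h ℚ).1 _).2.1] at ha1
    have ha3 : a ≠ 0 := by simpa using ha2
    unfold lQ at ha1
    simp only [List.map_map, List.mem_map, Function.comp_apply] at ha1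
    obtain ⟨q, _, rfl⟩ := ha1
    have : q.1 ≠ 0 := by
      intro h0; apply ha3; simp [h0]
    exact_mod_cast Nat.one_le_iff_ne_zero.2 this
  have hrow : ∀ i < S.length,
      ((List.range (S.length + 1)).map fun j => if j = i + 1 then (1 : ℚ) else 0) ∈
        rowsQ T (lQ l) := by
    intro i hi
    unfold rowsQ
    rw [List.mem_append]
    left
    rw [List.mem_map]
    exact ⟨i, List.mem_range.2 hi, rfl⟩
  have hlast : ((T : ℚ) :: S.map fun a => -a) ∈ rowsQ T (lQ l) := by
    unfold rowsQ
    rw [List.mem_append]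
    right
    simp [← hSdef]
  refine ⟨?_, ?_, le_max_right _ _, ?_, ?_, ?_, ?_⟩
  · calc S.length ≤ (ddp ((lQ l).map Prod.fst)).length := List.length_filter_le _ _
      _ = ((lQ l).map Prod.fst).toFinset.card := ((h ℚ).1 _).2.2
      _ ≤ (l.map Prod.fst).toFinset.card := by
        have : ((lQ l).map Prod.fst).toFinset
            = ((l.map Prod.fst).toFinset).image (fun n : ℕ => (n : ℚ)) := by
          ext a
          simp [lQ]
        rw [this]
        exact Finset.card_image_le
  · rcases le_total (T : ℚ) 2 with hT | hT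
    · rw [max_eq_right hT]; exact ⟨2, by norm_num⟩
    · rw [max_eq_left hT]; exact ⟨T, by simp⟩
  · rintro x ⟨hx1, hx2⟩
    have h0 : ∀ i < S.length, 0 ≤ x i := by
      intro i hi
      have := hx2 _ (hrow i hi)
      unfold aff at this
      rw [SIDE_row _ _ hi, SIDE_fn_range] at this
      simpa using this
    have h1 : ∀ i < S.length, x i ≤ T := by
      refine SIDE_bd S hmem T x h0 ?_
      have := hx2 _ hlast
      unfold aff at this
      simp only [SIDE_fn_cons] at this
      have h00 : fn ((T : ℚ) :: S.map fun a => -a) 0 = T := rfl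
      rwa [h00] at this
    refine ⟨hx1, fun i => ?_⟩
    rcases lt_or_ge i S.length with hi | hi
    · rw [abs_of_nonneg (h0 i hi)]
      exact le_trans (h1 i hi) (le_max_left _ _)
    · rw [hx1 i hi, abs_zero]
      exact le_trans (by norm_num) (le_max_right _ _)
  · intro x hx1 hx2 i
    have h0 : ∀ i < S.length, 0 ≤ x i := by
      intro i hi
      have := hx2 _ (hrow i hi)
      unfold lin at this
      rwa [SIDE_row _ _ hi] at this
    have h1 : ∀ i < S.length, x i ≤ 0 := by
      refine SIDE_bd S hmem 0 x h0 ?_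
      have := hx2 _ hlast
      unfold lin at this
      rw [zero_add]
      simpa only [SIDE_fn_cons] using this
    rcases lt_or_ge i S.length with hi | hi
    · exact le_antisymm (h1 i hi) (h0 i hi)
    · exact hx1 i hi
  · simp [yQ, ← hSdef]
  · intro i
    have hI : ∀ a ∈ yQ m (lQ l), IsI a := by
      intro a ha
      unfold yQ at ha
      rw [List.mem_append, List.mem_map] at ha
      rcases ha with ⟨b, _, rfl⟩ | ha
      · unfold cntQ
        have : ∀ L : List ℚ, (∀ c ∈ L, IsI c) → IsI L.sum := by
          intro L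
          induction L with
          | nil => intro _; exact ⟨0, by simp⟩
          | cons c L ih =>
            intro hc
            obtain ⟨z1, h1⟩ := hc c (by simp)
            obtain ⟨z2, h2⟩ := ih fun d hd => hc d (by simp [hd])
            exact ⟨z1 + z2, by rw [List.sum_cons, h1, h2]; push_cast; ring⟩
        apply this
        intro c hc
        rw [List.mem_map] at hc
        obtain ⟨q, hq, rfl⟩ := hc
        have hq1 := (List.mem_filter.1 hq).1
        unfold lQ at hq1
        rw [List.mem_map] at hq1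
        obtain ⟨r, _, rfl⟩ := hq1
        exact ⟨r.2, by simp⟩
      · rw [List.mem_singleton] at ha
        exact ⟨m, by simp [ha]⟩
    rcases lt_or_ge i (yQ m (lQ l)).length with hi | hi
    · exact hI _ (SIDE_fn_mem _ i hi)
    · rw [SIDE_fn_out _ i hi]; exact ⟨0, by simp⟩

end Pool.HMS
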