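import Pool.Agent.H76.HMS.SvStmts

set_option autoImplicit false

namespace Pool.HMS

open TMLib Finset

/-- Concatenation of the blocks of a list of pieces. -/
def VFL_flat : List ENode → (ℕ → ℕ → ℚ) → ℕ → ℚ
  | [], _, _ => 0
  | p :: L, us, i => if i < p.1 + 1 then us 0 i else VFL_flat L (fun l => us (l + 1)) (i - (p.1 + 1))

/-- start of the block -/
def VFL_off (L : List ENode) (l : ℕ) : ℕ := ((L.take l).map fun p => p.1 + 1).sum

theorem VFL_off_zero (L : List ENode) : VFL_off L 0 = 0 := by simp [VFL_off]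

theorem VFL_off_cons (p : ENode) (L : List ENode) (l : ℕ) :
    VFL_off (p :: L) (l + 1) = (p.1 + 1) + VFL_off L l := by simp [VFL_off]

theorem VFL_flat_eq (L : List ENode) : ∀ (us : ℕ → ℕ → ℚ) (l k : ℕ), l < L.length →
    k < (L.getD l (0, [], 0)).1 + 1 → VFL_flat L us (VFL_off L l + k) = us l k := by
  induction L with
  | nil => intro us l k hl; simp at hl
  | cons p L ih =>
    intro us l k hl hk
    cases l with
    | zero =>
      rw [VFL_off_zero, Nat.zero_add, VFL_flat]
      simp only [List.getD_cons_zero] at hk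
      rw [if_pos hk]
    | succ l =>
      rw [VFL_off_cons, VFL_flat, if_neg (by omega)]
      have h1 : p.1 + 1 + VFL_off L l + k - (p.1 + 1) = VFL_off L l + k := by omega
      rw [h1]
      simp only [List.getD_cons_succ] at hk
      exact ih _ l k (by simpa using hl) hk

theorem VFL_flat_supp (L : List ENode) : ∀ (us : ℕ → ℕ → ℚ) (i : ℕ), VFL_off L L.length ≤ i →
    VFL_flat L us i = 0 := by
  induction L with
  | nil => intro us i _; rfl
  | cons p L ih =>
    intro us i hi
    rw [List.length_cons, VFL_off_cons] at hi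
    rw [VFL_flat, if_neg (by omega)]
    exact ih _ _ (by omega)

theorem VFL_flat_int (L : List ENode) : ∀ (us : ℕ → ℕ → ℚ), (∀ l < L.length, ∀ i, IsI (us l i)) →
    ∀ i, IsI (VFL_flat L us i) := by
  induction L with
  | nil => intro us _ i; exact ⟨0, by simp [VFL_flat]⟩
  | cons p L ih =>
    intro us h i
    rw [VFL_flat]
    split_ifs
    · exact h 0 (by simp) i
    · exact ih _ (fun l hl => h (l + 1) (by simpa using hl)) _

theorem VFL_offs (d : ℕ) (S : SState) (l : ℕ) : offs d S l = S.1 * (d + 1) + VFL_off S.2 l := rfl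

/-- Every variable lies in a block. -/
theorem VFL_find_aux (L : List ENode) : ∀ i, i < VFL_off L L.length →
    ∃ l < L.length, ∃ k < (L.getD l (0, [], 0)).1 + 1, i = VFL_off L l + k := by
  induction L with
  | nil => intro i hi; simp [VFL_off] at hi
  | cons p L ih =>
    intro i hi
    rw [List.length_cons, VFL_off_cons] at hi
    by_cases h : i < p.1 + 1
    · exact ⟨0, by simp, i, by simpa using h, by rw [VFL_off_zero, Nat.zero_add]⟩
    · obtain ⟨l, hl, k, hk, he⟩ := ih (i - (p.1 + 1)) (by omega)
      refine ⟨l + 1, by simpa using hl, k, by simpa using hk, ?_⟩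
      rw [VFL_off_cons]; omega

theorem VFL_find (d : ℕ) (S : SState) (i : ℕ) (hi : i < dimS d S) :
    (∃ j < S.1, ∃ k < d + 1, i = j * (d + 1) + k) ∨
    (∃ l < S.2.length, ∃ k < (nodeAt S l).1 + 1, i = offs d S l + k) := by
  unfold dimS at hi
  rw [VFL_offs] at hi
  by_cases h : i < S.1 * (d + 1)
  · left
    refine ⟨i / (d + 1), (Nat.div_lt_iff_lt_mul (Nat.succ_pos d)).2 h, i % (d + 1),
      Nat.mod_lt _ (Nat.succ_pos d), ?_⟩
    rw [Nat.mul_comm]; exact (Nat.div_add_mod i (d + 1)).symm
  · right
    obtain ⟨l, hl, k, hk, he⟩ := VFL_find_aux S.2 (i - S.1 * (d + 1)) (by omega)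
    refine ⟨l, hl, k, hk, ?_⟩
    rw [VFL_offs]; omega

theorem VFL_off_le (L : List ENode) : ∀ l < L.length,
    VFL_off L l + ((L.getD l (0, [], 0)).1 + 1) ≤ VFL_off L L.length := by
  induction L with
  | nil => intro l hl; simp at hl
  | cons p L ih =>
    intro l hl
    rw [List.length_cons, VFL_off_cons]
    cases l with
    | zero => rw [VFL_off_zero]; simp
    | succ l =>
      rw [VFL_off_cons]
      have := ih l (by simpa using hl)
      simp only [List.getD_cons_succ]
      omega

theorem vfl_thm : S_VFL := by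
  intro d S s us hs hu
  let z : ℕ → ℚ := fun i =>
    if i < S.1 * (d + 1) then s (i / (d + 1)) (i % (d + 1)) else VFL_flat S.2 us (i - S.1 * (d + 1))
  refine ⟨z, ?_, ?_, ?_, ?_⟩
  · intro i hi
    unfold dimS at hi
    rw [VFL_offs] at hi
    show (if i < S.1 * (d + 1) then _ else _) = (0 : ℚ)
    rw [if_neg (by omega)]
    exact VFL_flat_supp _ _ _ (by omega)
  · intro j hj
    funext i
    unfold sgl blk
    split_ifs with hi
    · have h1 : j * (d + 1) + i < S.1 * (d + 1) := by
        calc j * (d + 1) + i < j * (d + 1) + (d + 1) := by omega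
          _ = (j + 1) * (d + 1) := by ring
          _ ≤ S.1 * (d + 1) := Nat.mul_le_mul_right _ hj
      show (if j * (d + 1) + i < S.1 * (d + 1) then _ else _) = _
      rw [if_pos h1]
      have h2 : (j * (d + 1) + i) / (d + 1) = j := by
        rw [Nat.mul_comm, Nat.mul_add_div (Nat.succ_pos d), Nat.div_eq_of_lt hi, Nat.add_zero]
      have h3 : (j * (d + 1) + i) % (d + 1) = i := by
        rw [Nat.mul_comm, Nat.mul_add_mod, Nat.mod_eq_of_lt hi]
      rw [h2, h3]
    · exact (hs j hj i (by omega)).symm
  · intro l hl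
    funext i
    unfold pcl blk
    split_ifs with hi
    · rw [VFL_offs]
      show (if S.1 * (d + 1) + VFL_off S.2 l + i < S.1 * (d + 1) then _ else _) = _
      rw [if_neg (by omega)]
      have h1 : S.1 * (d + 1) + VFL_off S.2 l + i - S.1 * (d + 1) = VFL_off S.2 l + i := by omega
      rw [h1]
      exact VFL_flat_eq _ _ _ _ hl hi
    · exact (hu l hl i (by omega)).symm
  · intro h1 h2 i
    show IsI (if i < S.1 * (d + 1) then _ else _)
    split_ifs with hi
    · exact h1 _ ((Nat.div_lt_iff_lt_mul (Nat.succ_pos d)).2 hi) _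
    · exact VFL_flat_int _ _ h2 _

end Pool.HMS
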