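import Pool.Agent.H3.HMS.VFL

set_option autoImplicit false

namespace Pool.HMS

open TMLib Finset

theorem VKC_blk_comb (z w : ℕ → ℚ) (a b : ℚ) (o n : ℕ) :
    blk (a • z + b • w) o n = a • blk z o n + b • blk w o n := by
  funext i
  simp only [blk, Pi.add_apply, Pi.smul_apply, smul_eq_mul]
  split_ifs <;> simp

theorem VKC_embH_comb (d e : ℕ) (N : Mat) (z w : ℕ → ℚ) (a b : ℚ) :
    embH d e N (a • z + b • w) = a • embH d e N z + b • embH d e N w := by
  funext c
  simp only [embH, Pi.add_apply, Pi.smul_apply, smul_eq_mul]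
  split_ifs
  · have : ∑ i ∈ range e, ent N c (i + 1) * (a * z i + b * w i)
        = a * ∑ i ∈ range e, ent N c (i + 1) * z i + b * ∑ i ∈ range e, ent N c (i + 1) * w i := by
      rw [Finset.mul_sum, Finset.mul_sum, ← Finset.sum_add_distrib]
      exact Finset.sum_congr rfl fun i _ => by ring
    rw [this]; ring
  · rfl
  · ring

theorem VKC_tot_comb (d : ℕ) (S : SState) (z w : ℕ → ℚ) (a b : ℚ) :
    totS d S (a • z + b • w) = a • totS d S z + b • totS d S w := by
  unfold totS sgl pcl
  simp only [VKC_blk_comb, VKC_embH_comb, Finset.sum_add_distrib, smul_add, Finset.smul_sum]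
  abel

theorem VKC_sing (d : ℕ) (rows : Mat) (u v : ℕ → ℚ) (a b : ℚ) (ha : 0 ≤ a) (hb : 0 ≤ b)
    (hab : a + b = 1) (hu : SingR d rows u) (hv : SingR d rows v) :
    SingR d rows (a • u + b • v) := by
  obtain ⟨u1, u2, u3⟩ := hu
  obtain ⟨v1, v2, v3⟩ := hv
  refine ⟨fun r hr => ?_, ?_, ?_⟩
  · have e : fn r 0 * (a • u + b • v) d + ∑ i ∈ range d, fn r (i + 1) * (a • u + b • v) i
        = a * (fn r 0 * u d + ∑ i ∈ range d, fn r (i + 1) * u i)
          + b * (fn r 0 * v d + ∑ i ∈ range d, fn r (i + 1) * v i) := by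
      simp only [Pi.add_apply, Pi.smul_apply, smul_eq_mul, mul_add, Finset.mul_sum]
      have : ∑ x ∈ range d, (fn r (x + 1) * (a * u x) + fn r (x + 1) * (b * v x))
          = ∑ i ∈ range d, a * (fn r (i + 1) * u i) + ∑ i ∈ range d, b * (fn r (i + 1) * v i) := by
        rw [← Finset.sum_add_distrib]
        exact Finset.sum_congr rfl fun i _ => by ring
      rw [this]; ring
    rw [e]
    exact add_nonneg (mul_nonneg ha (u1 r hr)) (mul_nonneg hb (v1 r hr))
  · simp only [Pi.add_apply, Pi.smul_apply, smul_eq_mul]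
    exact add_nonneg (mul_nonneg ha u2) (mul_nonneg hb v2)
  · simp only [Pi.add_apply, Pi.smul_apply, smul_eq_mul]
    nlinarith

theorem VKC_isI_sum {ι : Type} (L : List ι) (f : ι → ℚ) (h : ∀ p ∈ L, IsI (f p)) :
    IsI (L.map f).sum := by
  induction L with
  | nil => exact ⟨0, by simp⟩
  | cons p L ih =>
    obtain ⟨z1, h1⟩ := h p (by simp)
    obtain ⟨z2, h2⟩ := ih fun q hq => h q (by simp [hq])
    exact ⟨z1 + z2, by rw [List.map_cons, List.sum_cons, h1, h2]; push_cast; ring⟩

theorem VKC_sum_nonneg {ι : Type} (L : List ι) (f : ι → ℚ) (h : ∀ p ∈ L, 0 ≤ f p) :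
    0 ≤ (L.map f).sum ∧ ∀ p ∈ L, f p ≤ (L.map f).sum := by
  induction L with
  | nil => simp
  | cons p L ih =>
    have h1 := h p (by simp)
    obtain ⟨h2, h3⟩ := ih fun q hq => h q (by simp [hq])
    refine ⟨by rw [List.map_cons, List.sum_cons]; linarith, ?_⟩
    intro q hq
    rw [List.map_cons, List.sum_cons]
    rcases List.mem_cons.1 hq with rfl | hq
    · linarith
    · have := h3 q hq; linarith

theorem VKC_node_mem (S : SState) (l : ℕ) (hl : l < S.2.length) : nodeAt S l ∈ S.2 := by
  unfold nodeAt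
  rw [List.getD_eq_getElem?_getD, List.getElem?_eq_getElem hl]
  simp

theorem vkc_thm (h1 : S_VCB) (h2 : S_VPR) (h3 : S_VSG) : S_VKC := by
  constructor
  · intro d rows y S
    rw [convex_iff_forall_pos]
    rintro z ⟨z1, z2, z3, z4⟩ w ⟨w1, w2, w3, w4⟩ a b ha hb hab
    refine ⟨?_, ?_, ?_, ?_⟩
    · intro i hi
      simp [z1 i hi, w1 i hi]
    · intro j hj
      unfold sgl
      rw [VKC_blk_comb]
      exact VKC_sing d rows _ _ a b ha.le hb.le hab (z2 j hj) (w2 j hj)
    · intro l hl
      unfold pcl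
      rw [VKC_blk_comb]
      have hC := h1.1 (HP d rows (nodeAt S l))
      exact hC.2.1 _ (hC.2.2.1 _ (z3 l hl) a ha.le) _ (hC.2.2.1 _ (w3 l hl) b hb.le)
    · rw [VKC_tot_comb, z4, w4, ← add_smul, hab, one_smul]
  · intro C d B rows y S hBI hB2 hbox hrec hyl hyI hp
    have hnn : ∀ p ∈ S.2, (0 : ℚ) ≤ p.2.2 := fun p hp' => le_trans (by norm_num) (hp p hp').1.two
    obtain ⟨hs0, hs1⟩ := VKC_sum_nonneg S.2 (fun p => p.2.2) hnn
    refine ⟨?_, ?_, ?_⟩
    · rintro z ⟨z1, z2, z3, z4⟩
      refine ⟨z1, fun i => ?_⟩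
      -- all masses are bounded by the total mass
      have hcone : ∀ l < S.2.length, Supp ((nodeAt S l).1 + 1) (pcl d S z l) ∧
          0 ≤ pcl d S z l (nodeAt S l).1 := fun l hl => h1.2.2.1 _ _ _ (z3 l hl)
      have htot : ∑ j ∈ range S.1, sgl d z j d +
          ∑ l ∈ range S.2.length, pcl d S z l (nodeAt S l).1 = fn y d := by
        have := congrFun z4 d
        unfold totS at this
        rw [Pi.add_apply, Finset.sum_apply, Finset.sum_apply] at this
        rw [← this]
        congr 1
        refine Finset.sum_congr rfl fun l _ => ?_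
        unfold embH
        rw [if_neg (lt_irrefl d), if_pos rfl]
      have hy0 : 0 ≤ ∑ j ∈ range S.1, sgl d z j d :=
        Finset.sum_nonneg fun j hj => (z2 j (Finset.mem_range.1 hj)).2.1
      have hmass : ∀ l < S.2.length, pcl d S z l (nodeAt S l).1 ≤ |fn y d| := by
        intro l hl
        have h5 : pcl d S z l (nodeAt S l).1 ≤
            ∑ l ∈ range S.2.length, pcl d S z l (nodeAt S l).1 :=
          Finset.single_le_sum (f := fun l => pcl d S z l (nodeAt S l).1)
            (fun l hl => (hcone l (Finset.mem_range.1 hl)).2) (Finset.mem_range.2 hl)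
        exact le_trans (by linarith) (le_abs_self _)
      have hKB : KB d B y S = 2 + B + |fn y d| * (1 + (S.2.map fun p => p.2.2).sum) := rfl
      have habs : 0 ≤ |fn y d| := abs_nonneg _
      have hprod : 0 ≤ |fn y d| * (1 + (S.2.map fun p => p.2.2).sum) :=
        mul_nonneg habs (by linarith)
      rcases lt_or_ge i (dimS d S) with hi | hi
      · rcases VFL_find d S i hi with ⟨j, hj, k, hk, rfl⟩ | ⟨l, hl, k, hk, rfl⟩
        · have h6 : z (j * (d + 1) + k) = sgl d z j k := by
            unfold sgl blk; rw [if_pos hk]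
          rw [h6]
          have h7 := (h3 d rows hrec).2 B (by linarith) hbox (sgl d z j)
            (fun i hi => by unfold sgl blk; rw [if_neg (by omega)]) (z2 j hj) k
          rw [hKB]; linarith
        · have h6 : z (offs d S l + k) = pcl d S z l k := by
            unfold pcl blk; rw [if_pos hk]
          rw [h6]
          have hpl := hp _ (VKC_node_mem S l hl)
          have hsem : ∀ x ∈ Poly (nodeAt S l).1 (rowsOf d rows (nodeAt S l)),
              Box (nodeAt S l).1 (nodeAt S l).2.2 x := by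
            intro x hx
            rw [h2.1] at hx
            exact hpl.2 x hx
          have h7 := h1.2.2.2.2 _ _ _ hsem (le_trans (by norm_num) hpl.1.two) _ (z3 l hl) k
          have h8 := hs1 _ (VKC_node_mem S l hl)
          have h9 : (nodeAt S l).2.2 * pcl d S z l (nodeAt S l).1 ≤
              (S.2.map fun p => p.2.2).sum * |fn y d| :=
            mul_le_mul h8 (hmass l hl) (hcone l hl).2 hs0
          rw [hKB]
          nlinarith
      · rw [z1 i hi, abs_zero, hKB]
        linarith
    · obtain ⟨b, hb⟩ := hBI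
      obtain ⟨t, ht⟩ := hyI d
      obtain ⟨s, hs⟩ := VKC_isI_sum S.2 (fun p => p.2.2) fun p hp' => (hp p hp').1.intB
      refine ⟨2 + b + |t| * (1 + s), ?_⟩
      unfold KB
      rw [hb, ht, hs]
      push_cast
      ring
    · unfold KB
      have : 0 ≤ |fn y d| * (1 + (S.2.map fun p => p.2.2).sum) :=
        mul_nonneg (abs_nonneg _) (by linarith)
      linarith

end Pool.HMS
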