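import Pool.Agent.H3.HMS.PLib
import Pool.Agent.H76.HMS.SvStmts

set_option autoImplicit false

namespace Pool.HMS

open TMLib Finset Polynomial
open K3

variable {α β : Type} [Enc α] [Enc β] [Fact QOps] [Fact QSums]

@[fun_prop] lemma VPT_nodeAt {S : α → SState} {l : α → ℕ} (hS : PTime S) (hl : PTime l) :
    PTime (fun a => nodeAt (S a) (l a)) := by
  unfold nodeAt; fun_prop

@[fun_prop] lemma VPT_nsum {l : α → List ℕ} (hl : PTime l) : PTime (fun a => (l a).sum) := by
  have h1 : PTime (fun a => (((l a).flatMap fun n => List.replicate n ()).length)) := by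
    fun_prop
  refine h1.congr fun a => ?_
  rw [List.length_flatMap]
  simp

@[fun_prop] lemma VPT_offs {d : α → ℕ} {S : α → SState} {l : α → ℕ} (hd : PTime d) (hS : PTime S)
    (hl : PTime l) : PTime (fun a => offs (d a) (S a) (l a)) := by
  unfold offs; fun_prop

@[fun_prop] lemma VPT_dimS {d : α → ℕ} {S : α → SState} (hd : PTime d) (hS : PTime S) :
    PTime (fun a => dimS (d a) (S a)) := by
  unfold dimS; fun_prop

@[fun_prop] lemma VPT_rowsOf {d : α → ℕ} {r : α → Mat} {x : α → ENode} (hd : PTime d)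
    (hr : PTime r) (hx : PTime x) : PTime (fun a => rowsOf (d a) (r a) (x a)) := by
  unfold rowsOf; fun_prop

@[fun_prop] lemma VPT_embCol {d c : α → ℕ} {p : α → ENode} (hd : PTime d)
    (hp : PTime p) (hc : PTime c) : PTime (fun a => embCol (d a) (p a) (c a)) := by
  unfold embCol; fun_prop

@[fun_prop] lemma VPT_eqRow {d c : α → ℕ} {y : α → Vec} {S : α → SState} (hd : PTime d)
    (hy : PTime y) (hS : PTime S) (hc : PTime c) :
    PTime (fun a => eqRow (d a) (y a) (S a) (c a)) := by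
  unfold eqRow; fun_prop

@[fun_prop] lemma VPT_SRows {d : α → ℕ} {r : α → Mat} {y : α → Vec} {S : α → SState}
    (hd : PTime d) (hr : PTime r) (hy : PTime y) (hS : PTime S) :
    PTime (fun a => SRows (d a) (r a) (y a) (S a)) := by
  unfold SRows; fun_prop

@[fun_prop] lemma VPT_KB {d : α → ℕ} {B : α → ℚ} {y : α → Vec} {S : α → SState}
    (hd : PTime d) (hB : PTime B) (hy : PTime y) (hS : PTime S) :
    PTime (fun a => KB (d a) (B a) (y a) (S a)) := by
  unfold KB; fun_prop

@[fun_prop] lemma VPT_qNum {d D : α → ℕ} (hd : PTime d) (hD : PTime D) :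
    PTime (fun a => qNum (d a) (D a)) := by
  unfold qNum
  have h3 : PTime (fun a => D a ^ 3) := PTime.pow hD 3
  have h2 : PTime (fun a => (d a + 1) ^ 2) := PTime.pow (by fun_prop) 2
  fun_prop

theorem VPT_kO {hull : HData → Option Vec} (hh : PTime hull) :
    PTime (fun p : (SCtx × SState) × Vec => kO hull p.1 p.2) := by
  have h1 : PTime (fun p : (SCtx × SState) × Vec =>
      polyO (SRows p.1.1.1 p.1.1.2.1 p.1.1.2.2.2.1 p.1.2) p.2) := by fun_prop
  have h2 : PTime (fun p : (SCtx × SState) × Vec =>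
      ((List.range p.1.2.2.length).filterMap fun l =>
        (hull (((nodeAt p.1.2 l).1, rowsOf p.1.1.1 p.1.1.2.1 (nodeAt p.1.2 l),
          (nodeAt p.1.2 l).2.2), (p.2.drop (offs p.1.1.1 p.1.2 l)).take ((nodeAt p.1.2 l).1 + 1),
          p.1.1.2.2.2.2)).map
        fun w => (0 : ℚ) :: (List.replicate (offs p.1.1.1 p.1.2 l) (0 : ℚ) ++ w)).head?) := by
    refine PTime.head? (PTime.filterMap (by fun_prop) ?_)
    refine PTime.optMap ?_ (by fun_prop)
    exact hh.comp (by fun_prop)
  refine (PTime.optCases (g := fun _ r => some r) h1 h2 (by fun_prop)).congr fun p => ?_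
  unfold kO
  cases polyO (SRows p.1.1.1 p.1.1.2.1 p.1.1.2.2.2.1 p.1.2) p.2 <;> rfl

theorem VPT_ppO {hull : HData → Option Vec} (hh : PTime hull) :
    PTime (fun p : PCtx × Vec => ppO hull p.1 p.2) := by
  have h1 : PTime (fun p : PCtx × Vec =>
      polyO (rowsOf p.1.1.1 p.1.1.2.1 p.1.2.1) p.2) := by fun_prop
  have h2 : PTime (fun p : PCtx × Vec =>
      (hull ((p.1.2.1.1, rowsOf p.1.1.1 p.1.1.2.1 p.1.2.1, p.1.2.1.2.2),
      tab (p.1.2.1.1 + 1) (fun i => fn p.1.2.2 i -
        ((p.1.2.1.1 : ℚ) + 1) * (if i < p.1.2.1.1 then fn p.2 i else 1)), p.1.1.2.2)).map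
      fun w => tab (p.1.2.1.1 + 1) fun k =>
        if k = 0 then sumTo (p.1.2.1.1 + 1) (fun i => fn w i * fn p.1.2.2 i) -
          ((p.1.2.1.1 : ℚ) + 1) * fn w p.1.2.1.1
        else -(((p.1.2.1.1 : ℚ) + 1) * fn w (k - 1))) := by
    refine PTime.optMap ?_ (by fun_prop)
    exact hh.comp (by fun_prop)
  refine (PTime.optCases (g := fun _ r => some r) h1 h2 (by fun_prop)).congr fun p => ?_
  unfold ppO
  cases polyO (rowsOf p.1.1.1 p.1.1.2.1 p.1.2.1) p.2 <;> rfl

theorem VPT_rndAt {rnd : PCtx × ℕ × ℚ → RRes} (hr : PTime rnd) {c : α → SCtx} {S : α → SState}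
    {z : α → Vec} {l : α → ℕ} (hc : PTime c) (hS : PTime S) (hz : PTime z) (hl : PTime l) :
    PTime (fun a => rndAt rnd (c a) (S a) (z a) (l a)) := by
  unfold rndAt
  exact hr.comp (by fun_prop)

theorem VPT_badIdx {rnd : PCtx × ℕ × ℚ → RRes} (hr : PTime rnd) {c : α → SCtx} {S : α → SState}
    {z : α → Vec} (hc : PTime c) (hS : PTime S) (hz : PTime z) :
    PTime (fun a => badIdx rnd (c a) (S a) (z a)) := by
  unfold badIdx
  refine PTime.head? (PTime.filter (by fun_prop) ?_)
  refine PTime.and (by fun_prop) (PTime.not ?_)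
  have h := VPT_rndAt (α := α × ℕ) hr (c := fun p => c p.1) (S := fun p => S p.1)
    (z := fun p => z p.1) (l := fun p => p.2) (by fun_prop) (by fun_prop) (by fun_prop)
    (by fun_prop)
  exact PTime.fst (PTime.fst h)

@[fun_prop] lemma VPT_splitS {d b : α → ℕ} {S : α → SState} {l : α → ℕ} {r : α → RRes}
    (hd : PTime d) (hb : PTime b) (hS : PTime S) (hl : PTime l) (hr : PTime r) :
    PTime (fun a => splitS (d a) (b a) (S a) (l a) (r a)) := by
  unfold splitS; fun_prop

theorem VPT_svNode {ex : (SCtx × SState) × ℕ × ℚ × ℕ → List Vec} {rnd : PCtx × ℕ × ℚ → RRes}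
    (he : PTime ex) (hr : PTime rnd) : PTime (fun p : SCtx × SState => svNode ex rnd p.1 p.2) := by
  have h1 : PTime (fun p : SCtx × SState => ex ((p.1, p.2), dimS p.1.1 p.2,
      KB p.1.1 p.1.2.2.1 p.1.2.2.2.1 p.2, p.1.2.2.2.2)) := he.comp (by fun_prop)
  unfold svNode
  refine PTime.pair (PTime.filter (PTime.filterMap h1 (PTime.optMap ?_ ?_)) ?_) ?_
  · exact VPT_badIdx hr (by fun_prop) (by fun_prop) (by fun_prop)
  · have h2 := VPT_rndAt (α := ((SCtx × SState) × Vec) × ℕ) hr (c := fun p => p.1.1.1)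
      (S := fun p => p.1.1.2) (z := fun p => p.1.2) (l := fun p => p.2) (by fun_prop)
      (by fun_prop) (by fun_prop) (by fun_prop)
    fun_prop
  · exact PTime.le (PTime.sz' (by fun_prop)) (PTime.mul (by fun_prop) (PTime.sz' (by fun_prop)))
  · refine PTime.ite (PTime.decide_true' (PTime.any h1 ?_)) (by fun_prop) (by fun_prop)
    have h3 : PTime (fun p : (SCtx × SState) × Vec => badIdx rnd p.1.1 p.1.2 p.2) :=
      VPT_badIdx hr (by fun_prop) (by fun_prop) (by fun_prop)
    refine (PTime.not (PTime.isSome h3)).congr fun p => ?_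
    cases badIdx rnd p.1.1 p.1.2 p.2 <;> rfl

omit [Fact QOps] [Fact QSums] in
theorem vpt_thm (h1 : S_QOP) (h2 : S_QSUM) : S_VPT := by
  haveI : Fact QOps := Fact.mk h1
  haveI : Fact QSums := Fact.mk h2
  refine ⟨fun hull hh => VPT_kO hh, fun hull hh => VPT_ppO hh, fun ex rnd he hr => ?_⟩
  have hcap : PB (fun c : SCtx => c.2.2.2.2 * sz (c.1, c.2.2.1)) := by
    have h1 : PTime (fun c : SCtx => c.2.2.2.2) := by fun_prop
    have h2 : PTime (fun c : SCtx => (c.1, c.2.2.1)) := by fun_prop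
    exact (h1.pb.mono fun c => by simp only [sz_nat]; omega).mul h2.pb
  have := WPT_main (ex := svNode ex rnd) (VPT_svNode he hr) hcap (fun c x y hy => by
    unfold svNode at hy
    simpa using (List.mem_filter.1 hy).2)
    (init := fun c : SCtx => ((0, [(c.1, idMat c.1, c.2.2.1)]) : SState)) (by fun_prop)
    (n := fun c : SCtx => c.2.2.2.2) (by fun_prop)
  unfold solveA
  exact PTime.not (PTime.isEmpty (PTime.snd this))

end Pool.HMS
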